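import Mathlib

set_option autoImplicit false

/-!
# Complements of multicone graphs that are not determined by their adjacency spectrum

For every `w ≥ 2` the complement of `K_w ▽ C_6` (that is, the triangular prism together with `w`
isolated vertices) has a non-isomorphic cospectral mate: the connected graph on eight vertices
consisting of two adjacent vertices, each carrying two pendant vertices, together with two further
common neighbours, plus `w - 2` isolated vertices.
-/

namespace Pool.Agent.Results.MP_cd2ba9_co.Disproof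

open Polynomial

open Classical in
/-- The adjacency spectrum of a finite graph: the multiset of eigenvalues of its real adjacency
matrix, that is, the roots of the characteristic polynomial with multiplicity. -/
noncomputable def adjSpectrum {V : Type} [Fintype V] (G : SimpleGraph V) : Multiset ℝ :=
  (G.adjMatrix ℝ).charpoly.roots

/-- A finite graph is determined by its adjacency spectrum if every finite graph with the same
adjacency spectrum is isomorphic to it. -/
def IsDS {V : Type} [Fintype V] (G : SimpleGraph V) : Prop :=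
  ∀ (W : Type) [Fintype W] (H : SimpleGraph W), adjSpectrum H = adjSpectrum G → Nonempty (H ≃g G)

/-- The join of two vertex-disjoint graphs: the disjoint union together with all edges between the
two parts. -/
def join {V W : Type} (G : SimpleGraph V) (H : SimpleGraph W) : SimpleGraph (V ⊕ W) :=
  (G ⊕g H) ⊔ completeBipartiteGraph V W

/-- The disjoint union `m C_n` of `m` copies of the cycle `C_n`. -/
def copiesCycle (m n : ℕ) : SimpleGraph (Fin m × Fin n) :=
  (⊥ : SimpleGraph (Fin m)) □ SimpleGraph.cycleGraph n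

/-- The multicone graph `K_w ▽ m C_n`. -/
def multicone (w m n : ℕ) : SimpleGraph (Fin w ⊕ (Fin m × Fin n)) :=
  join (⊤ : SimpleGraph (Fin w)) (copiesCycle m n)

/-! ## The cospectral mate -/

/-- Boolean adjacency of the eight-vertex mate. -/
def mateB (i j : Fin 8) : Bool :=
  ((i, j) ∈ ([(6, 7), (6, 4), (6, 5), (7, 4), (7, 5), (0, 7), (1, 7), (2, 6), (3, 6)] :
      List (Fin 8 × Fin 8))) ||
  ((j, i) ∈ ([(6, 7), (6, 4), (6, 5), (7, 4), (7, 5), (0, 7), (1, 7), (2, 6), (3, 6)] :
      List (Fin 8 × Fin 8)))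

/-- The eight-vertex mate. -/
def mate8 : SimpleGraph (Fin 8) where
  Adj i j := mateB i j = true
  symm := ⟨by decide⟩
  loopless := ⟨by decide⟩

instance : DecidableRel mate8.Adj := fun i j => inferInstanceAs (Decidable (mateB i j = true))

/-- The integer adjacency matrix of the triangular prism, as the complement of `C_6`. -/
def prismZ : Matrix (Fin 6) (Fin 6) ℤ := fun i j => if i ≠ j ∧ ¬ (i - j = 1 ∨ j - i = 1) then 1 else 0

/-- Integer adjacency matrix of two isolated vertices and the prism, in block form. -/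
def blockZ : Matrix (Fin 2 ⊕ Fin 6) (Fin 2 ⊕ Fin 6) ℤ := Matrix.fromBlocks 0 0 0 prismZ

/-- Integer adjacency matrix of the mate. -/
def mateZ : Matrix (Fin 8) (Fin 8) ℤ := fun i j => if mateB i j then 1 else 0

/-- Intertwiner. -/
def sZ : Matrix (Fin 8) (Fin 8) ℤ :=
  !![-36, 0, 5, 5, -4, 23, -13, -4;
     36, 0, -7, 11, 2, 11, -7, 2;
     0, -36, 23, -4, 5, 5, -4, -13;
     0, 36, 11, 2, 11, -7, 2, -7;
     0, 0, -2, 25, 7, -2, 7, -11;
     0, 0, -2, 7, 25, -2, -11, 7;
     0, 0, 6, -12, 6, 6, 24, 6;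
     0, 0, 6, 6, -12, 6, 6, 24]

/-- Scaled inverse of the intertwiner. -/
def tZ : Matrix (Fin 8) (Fin 8) ℤ :=
  !![-10, 20, 5, 5, -5, -5, 0, 0;
     5, 5, -10, 20, -5, -5, 0, 0;
     -2, -2, 28, 28, -4, -4, -6, 24;
     1, 1, 1, 1, 32, 2, -12, 18;
     1, 1, 1, 1, 2, 32, 18, -12;
     28, 28, -2, -2, -4, -4, 24, -6;
     -5, -5, -5, -5, 20, -10, 30, 0;
     -5, -5, -5, -5, -10, 20, 0, 30]

/-- `Fin 2 ⊕ Fin 6 ≃ Fin 8`. -/
def e8 : Fin 2 ⊕ Fin 6 ≃ Fin 8 := finSumFinEquiv

lemma intertwine : mateZ * sZ = sZ * (Matrix.reindex e8 e8 blockZ) := by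
  decide +kernel

lemma st_eq : sZ * tZ = (1080 : ℤ) • (1 : Matrix (Fin 8) (Fin 8) ℤ) := by
  decide +kernel

lemma ts_eq : tZ * sZ = (1080 : ℤ) • (1 : Matrix (Fin 8) (Fin 8) ℤ) := by
  decide +kernel

/-- Real version of an integer matrix. -/
noncomputable abbrev toR {n : Type} (A : Matrix n n ℤ) : Matrix n n ℝ := A.map (fun z : ℤ => (z : ℝ))

lemma toR_mul {n : Type} [Fintype n] (A B : Matrix n n ℤ) : toR (A * B) = toR A * toR B := by
  have := Matrix.map_mul (L := A) (M := B) (f := Int.castRingHom ℝ)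
  simpa [toR] using this

lemma toR_smul_one :
    (1080 : ℝ)⁻¹ • toR ((1080 : ℤ) • (1 : Matrix (Fin 8) (Fin 8) ℤ)) = 1 := by
  ext i j
  by_cases hij : i = j
  · subst hij
    simp only [toR, Matrix.smul_apply, Matrix.map_apply, Matrix.one_apply_eq]
    norm_num
  · simp only [toR, Matrix.smul_apply, Matrix.map_apply, Matrix.one_apply_ne hij]
    norm_num

lemma charpoly_eq_of_intertwine {n : Type} [Fintype n] [DecidableEq n]
    (A B S T : Matrix n n ℝ) (h1 : S * T = 1) (h2 : T * S = 1) (h3 : A * S = S * B) :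
    A.charpoly = B.charpoly := by
  let U : (Matrix n n ℝ)ˣ := ⟨S, T, h1, h2⟩
  have h4 : A = U.val * B * U⁻¹.val := by
    change A = S * B * T
    rw [← h3, Matrix.mul_assoc, h1, Matrix.mul_one]
  have h5 := Matrix.charpoly_units_conj U B
  rw [← Matrix.coe_units_inv] at h5
  rw [h4]
  exact h5

lemma charpoly_mate :
    (toR mateZ).charpoly = (toR (Matrix.reindex e8 e8 blockZ)).charpoly := by
  apply charpoly_eq_of_intertwine (toR mateZ) (toR (Matrix.reindex e8 e8 blockZ)) (toR sZ)
    ((1080 : ℝ)⁻¹ • toR tZ)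
  · rw [Matrix.mul_smul, ← toR_mul, st_eq]
    exact toR_smul_one
  · rw [Matrix.smul_mul, ← toR_mul, ts_eq]
    exact toR_smul_one
  · rw [← toR_mul, ← toR_mul, intertwine]

lemma charpoly_block_gen {k l : Type} [Fintype k] [DecidableEq k] [Fintype l] [DecidableEq l]
    (M : Matrix l l ℝ) :
    (Matrix.fromBlocks (0 : Matrix k k ℝ) 0 0 M).charpoly =
      X ^ (Fintype.card k) * M.charpoly := by
  rw [Matrix.charpoly_fromBlocks_zero₁₂, Matrix.charpoly_zero]

lemma charpoly_block :
    (toR (Matrix.reindex e8 e8 blockZ)).charpoly = X ^ 2 * (toR prismZ).charpoly := by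
  have h : toR (Matrix.reindex e8 e8 blockZ) =
      Matrix.reindex e8 e8 (Matrix.fromBlocks (0 : Matrix (Fin 2) (Fin 2) ℝ) 0 0 (toR prismZ)) := by
    have hb : toR blockZ = Matrix.fromBlocks (0 : Matrix (Fin 2) (Fin 2) ℝ) 0 0 (toR prismZ) := by
      ext i j
      rcases i with i | i <;> rcases j with j | j <;> simp [blockZ, toR]
    rw [← hb]
    rfl
  rw [h, Matrix.charpoly_reindex, charpoly_block_gen, Fintype.card_fin]

/-- The mate for general `w`: the eight-vertex graph and `w - 2` isolated vertices. -/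
def mate (w : ℕ) : SimpleGraph (Fin (w - 2) ⊕ Fin 8) :=
  (⊥ : SimpleGraph (Fin (w - 2))) ⊕g mate8

lemma adj_mate_w (w : ℕ) [DecidableRel (mate w).Adj] :
    (mate w).adjMatrix ℝ =
      Matrix.fromBlocks (0 : Matrix (Fin (w - 2)) (Fin (w - 2)) ℝ) 0 0 (toR mateZ) := by
  ext i j
  rw [SimpleGraph.adjMatrix_apply]
  rcases i with i | i <;> rcases j with j | j
  · have : ¬ (mate w).Adj (Sum.inl i) (Sum.inl j) := by simp [mate]
    simp [this]
  · have : ¬ (mate w).Adj (Sum.inl i) (Sum.inr j) := by simp [mate]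
    simp [this]
  · have : ¬ (mate w).Adj (Sum.inr i) (Sum.inl j) := by simp [mate]
    simp [this]
  · have : (mate w).Adj (Sum.inr i) (Sum.inr j) ↔ mateB i j = true := by
      rw [mate, SimpleGraph.sum_adj_inr]
      rfl
    simp only [this, Matrix.fromBlocks_apply₂₂, toR, Matrix.map_apply, mateZ]
    split_ifs <;> simp

lemma charpoly_mate_w (w : ℕ) [DecidableRel (mate w).Adj] :
    ((mate w).adjMatrix ℝ).charpoly = X ^ (w - 2) * (X ^ 2 * (toR prismZ).charpoly) := by
  rw [adj_mate_w, charpoly_block_gen, charpoly_mate, charpoly_block, Fintype.card_fin]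

lemma multicone_adj (w : ℕ) (a : Fin 1) (i j : Fin 6) :
    (multicone w 1 6)ᶜ.Adj (Sum.inr (a, i)) (Sum.inr (a, j)) ↔
      (i ≠ j ∧ ¬ (i - j = 1 ∨ j - i = 1)) := by
  simp only [multicone, join, SimpleGraph.compl_adj, SimpleGraph.sup_adj,
    SimpleGraph.sum_adj, completeBipartiteGraph, copiesCycle, SimpleGraph.boxProd_adj,
    SimpleGraph.cycleGraph, SimpleGraph.bot_adj]
  simp

lemma charpoly_multicone (w : ℕ) [DecidableRel (multicone w 1 6)ᶜ.Adj] :
    ((multicone w 1 6)ᶜ.adjMatrix ℝ).charpoly = X ^ w * (toR prismZ).charpoly := by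
  let e : Fin 6 ≃ Fin 1 × Fin 6 := (Equiv.uniqueProd (Fin 6) (Fin 1)).symm
  have h : (multicone w 1 6)ᶜ.adjMatrix ℝ =
      Matrix.fromBlocks (0 : Matrix (Fin w) (Fin w) ℝ) 0 0
        (Matrix.reindex e e (toR prismZ)) := by
    ext i j
    rw [SimpleGraph.adjMatrix_apply]
    rcases i with i | ⟨a, i⟩ <;> rcases j with j | ⟨b, j⟩
    · have : ¬ (multicone w 1 6)ᶜ.Adj (Sum.inl i) (Sum.inl j) := by simp [multicone, join]
      simp [this]
    · have : ¬ (multicone w 1 6)ᶜ.Adj (Sum.inl i) (Sum.inr (b, j)) := by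
        simp [multicone, join, completeBipartiteGraph]
      simp [this]
    · have : ¬ (multicone w 1 6)ᶜ.Adj (Sum.inr (a, i)) (Sum.inl j) := by
        simp [multicone, join, completeBipartiteGraph]
      simp [this]
    · have hab : a = b := Subsingleton.elim _ _
      subst hab
      have : (multicone w 1 6)ᶜ.Adj (Sum.inr (a, i)) (Sum.inr (a, j)) ↔
          (i ≠ j ∧ ¬ (i - j = 1 ∨ j - i = 1)) := multicone_adj w a i j
      simp only [this, Matrix.fromBlocks_apply₂₂, toR, Matrix.map_apply, prismZ,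
        Matrix.reindex_apply, Matrix.submatrix_apply]
      change _ = (((if i ≠ j ∧ ¬ (i - j = 1 ∨ j - i = 1) then 1 else 0 : ℤ)) : ℝ)
      split_ifs <;> simp
  rw [h, charpoly_block_gen, Matrix.charpoly_reindex, Fintype.card_fin]

/-- `adjSpectrum` does not depend on the decidability instances. -/
lemma adjSpectrum_eq {V : Type} [Fintype V] [i1 : DecidableEq V] (G : SimpleGraph V)
    [i2 : DecidableRel G.Adj] : adjSpectrum G = (G.adjMatrix ℝ).charpoly.roots := by
  have h1 : i1 = (fun a b => Classical.propDecidable (a = b)) := Subsingleton.elim _ _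
  have h2 : i2 = (fun a b => Classical.propDecidable (G.Adj a b)) := Subsingleton.elim _ _
  subst h1
  subst h2
  rfl

lemma spectrum_eq (w : ℕ) (hw : 2 ≤ w) :
    adjSpectrum (mate w) = adjSpectrum (multicone w 1 6)ᶜ := by
  have : DecidableRel (mate w).Adj := fun a b => Classical.propDecidable _
  have : DecidableRel (multicone w 1 6)ᶜ.Adj := fun a b => Classical.propDecidable _
  have h1 := charpoly_mate_w w
  have h2 := charpoly_multicone w
  rw [← mul_assoc, ← pow_add, Nat.sub_add_cancel hw, ← h2] at h1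
  rw [adjSpectrum_eq, adjSpectrum_eq, h1]

lemma not_iso (w : ℕ) : ¬ Nonempty (mate w ≃g (multicone w 1 6)ᶜ) := by
  rintro ⟨φ⟩
  -- the vertex `0` of the eight-vertex graph has a unique neighbour
  have h0 : (mate w).Adj (Sum.inr 0) (Sum.inr 7) := by
    simp only [mate, SimpleGraph.sum_adj]
    decide
  have huniq : ∀ z, (mate w).Adj (Sum.inr 0) z → z = Sum.inr 7 := by
    rintro (z | z) hz
    · simp [mate] at hz
    · have : mateB 0 z = true := by simpa [mate, mate8] using hz
      have h8 : ∀ z : Fin 8, mateB 0 z = true → z = 7 := by decide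
      rw [h8 z this]
  have huniq' : ∀ z, (multicone w 1 6)ᶜ.Adj (φ (Sum.inr 0)) z → z = φ (Sum.inr 7) := by
    intro z hz
    have hz' : (multicone w 1 6)ᶜ.Adj (φ (Sum.inr 0)) (φ (φ.symm z)) := by simpa using hz
    have := huniq _ (φ.map_adj_iff.mp hz')
    rw [← this]
    simp
  have hadj : (multicone w 1 6)ᶜ.Adj (φ (Sum.inr 0)) (φ (Sum.inr 7)) := φ.map_adj_iff.mpr h0
  rcases hφ : φ (Sum.inr 0) with i | ⟨a, i⟩
  · rw [hφ] at hadj
    rcases hψ : φ (Sum.inr 7) with j | ⟨b, j⟩
    · rw [hψ] at hadj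
      simp [multicone, join] at hadj
    · rw [hψ] at hadj
      simp [multicone, join, completeBipartiteGraph] at hadj
  · rw [hφ] at huniq'
    have key : ∀ d : Fin 6, d ≠ 0 → d ≠ 1 → d ≠ 5 →
        (multicone w 1 6)ᶜ.Adj (Sum.inr (a, i)) (Sum.inr (a, i + d)) := by
      intro d h0 h1 h5
      rw [multicone_adj]
      have hd : ∀ i d : Fin 6, d ≠ 0 → d ≠ 1 → d ≠ 5 →
          (i ≠ i + d) ∧ ¬ (i - (i + d) = 1 ∨ i + d - i = 1) := by decide
      exact hd i d h0 h1 h5
    have e2 := huniq' _ (key 2 (by decide) (by decide) (by decide))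
    have e3 := huniq' _ (key 3 (by decide) (by decide) (by decide))
    rw [← e3] at e2
    have h23 : i + 2 = i + 3 := congrArg Prod.snd (Sum.inr_injective e2)
    have hne : ∀ i : Fin 6, i + 2 ≠ i + 3 := by decide
    exact hne i h23

/-- **Disproof of Q1.** For every `w ≥ 2`, the complement of the multicone graph `K_w ▽ m C_n` with
`m = 1` and `n = 6` is not determined by its adjacency spectrum. -/
theorem result : ∀ w : ℕ, 2 ≤ w → ¬ IsDS (multicone w 1 6)ᶜ := by
  intro w hw h
  exact not_iso w (h _ (mate w) (spectrum_eq w hw))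

/-- The literal negation of Q1. -/
theorem not_Q1 : ¬ (∀ w m n : ℕ, 1 ≤ w → 1 ≤ m → 3 ≤ n → IsDS (multicone w m n)ᶜ) := fun h =>
  result 2 le_rfl (h 2 1 6 (by norm_num) le_rfl (by norm_num))

end Pool.Agent.Results.MP_cd2ba9_co.Disproof
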